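import Pool.Agent.Helper50.DS.Glue

/-!
# Project DS (MP_743798_lc): the subalgebras of the stages of the iteration
-/

set_option autoImplicit false
set_option linter.unusedSectionVars false

namespace Pool.Agent.Helper50.DS

open Pool.Agent.Helper33.HM

section Iter

variable {T : Type} [Preorder T] (e : Cod T)

theorem isSub (i : Ordinal.{0}) : IsSub (Sub e i) where
  compl_mem := by
    intro U hU p hp q hq
    rw [RO.mem_compl]
    intro r hr hrU
    have h1 : LEi e i r p := LEi_trans e i (hr i) hq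
    have h2 : @LE.le (P e) _ (glue i r p) p := glue_le e h1
    exact (RO.mem_compl.1 hp) _ h2 (hU r hrU (glue i r p) (glue_LEi e le_rfl r p))
  sSup_mem := by
    intro t ht p hp q hq
    rw [RO.mem_sSup]
    intro q' hq'
    have h1 : LEi e i q' p := LEi_trans e i (hq' i) hq
    have h2 : @LE.le (P e) _ (glue i q' p) p := glue_le e h1
    obtain ⟨r, hr, V, hV, hrV⟩ := (RO.mem_sSup.1 hp) _ h2
    have h3 : LEi e i r q' := LEi_trans e i (hr i) (glue_LEi e le_rfl q' p)
    exact ⟨glue i r q', glue_le e h3, V, hV, ht hV r hrV (glue i r q') (glue_LEi e le_rfl r q')⟩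

theorem sub_mono {i j : Ordinal.{0}} (h : i ≤ j) : Sub e i ⊆ Sub e j :=
  fun _ hU p hp q hq => hU p hp q (LEi_mono e h hq)

theorem gen_mem_sub {i : Ordinal.{0}} {A : Set (P e)} (hA : ∀ a ∈ A, Cnd.lt a i) :
    RO.gen A ∈ Sub e i := by
  intro p hp q hq
  rw [RO.mem_gen]
  intro q' hq'
  have h1 : LEi e i q' p := LEi_trans e i (hq' i) hq
  have h2 : @LE.le (P e) _ (glue i q' p) p := glue_le e h1
  obtain ⟨r, hr, a, ha, hra⟩ := (RO.mem_gen.1 hp) _ h2
  have h3 : LEi e i r q' := LEi_trans e i (hr i) (glue_LEi e le_rfl q' p)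
  refine ⟨glue i r q', glue_le e h3, a, ha, le_of_LEi e (hA a ha) ?_⟩
  exact LEi_trans e i (glue_LEi e le_rfl r q') (hra i)

end Iter

end Pool.Agent.Helper50.DS
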